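import Pool.Agent.H7.KR.Stmts

set_option autoImplicit false

open Finset

namespace Pool.KR

open Pool.Agent.H23.KT Pool.Agent.H46.KW Pool.KQ

theorem ysm : YSMStmt := by
  intro V _ _ G p a K hK
  have hp : (0 : ℝ) ≤ p := Nat.cast_nonneg p
  have h0 : ∀ w, 0 ≤ fp G a K w := fun w => le_max_right _ _
  have hff : 0 ≤ ff G a K := Finset.sum_nonneg fun w _ => h0 w
  have hy0 : ∀ v, 0 ≤ yy G p a K v := by
    intro v
    rw [yy]
    split_ifs with h
    · exact add_nonneg (h0 v) (div_nonneg (by linarith only [h]) (by linarith only [hp]))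
    · exact mul_nonneg (h0 v) (div_nonneg (by linarith only [hp]) hff)
  have hs : ∑ v ∈ K, yy G p a K v = p + 2 := by
    by_cases h : ff G a K ≤ (p : ℝ) + 2
    · have h1 : ∑ v ∈ K, yy G p a K v =
          ∑ v ∈ K, (fp G a K v + ((p : ℝ) + 2 - ff G a K) / ((p : ℝ) + 4)) := by
        refine Finset.sum_congr rfl fun v _ => ?_
        rw [yy, if_pos h]
      have h2 : (p : ℝ) + 4 ≠ 0 := by linarith only [hp]
      rw [h1, Finset.sum_add_distrib, Finset.sum_const, hK, nsmul_eq_mul]
      change ff G a K + _ = _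
      push_cast
      field_simp
      ring
    · have h1 : ∑ v ∈ K, yy G p a K v =
          ∑ v ∈ K, fp G a K v * (((p : ℝ) + 2) / ff G a K) := by
        refine Finset.sum_congr rfl fun v _ => ?_
        rw [yy, if_neg h]
      rw [not_le] at h
      have h2 : ff G a K ≠ 0 := by
        intro h3
        linarith only [h, h3, hp]
      rw [h1, ← Finset.sum_mul]
      change ff G a K * _ = _
      field_simp
  refine ⟨hy0, hs, ?_⟩
  intro v hv
  rw [← hs]
  exact Finset.single_le_sum (fun w _ => hy0 w) hv

end Pool.KR
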